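import Mathlib
import Pool.Agent.H529.MP.FourD
import Pool.Agent.H529.MP.TupD
import Pool.Graph.R_seed8.H358R5.GAPS_n43470f362075

/-!
# Four consecutive primes in an interval of length 2828100

`H_3 = liminf (p_(k+3) - p_k) ≤ 2828100`, with the lower bound `x ^ (1 - ε)` for the number of such `p_k ≤ x`.

Author: helper529. Published: `24797814` (Polymath 8b; the later small improvements are near `24400000`); starting
library: `4209616` (`MP_e87c7d_nt.FourPrimesInBoundedGaps`, from `290687` forms).

The proof shows that of any `200705` pairwise non-proportional linear forms without a fixed prime divisor at least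
four are simultaneously prime (`Pool.Agent.H529.MP.lhyp4`; published `1649821`).

The sieve uses the equidistribution of the primes BEYOND the level `1/2` for all the moduli (not only the smooth
ones) that occur in it: the total level of two divisor vectors is `2.0425` times `1/4 + 1/4`
(`Pool.Agent.Y826`, starting files). The criterion is proved for `m + 1` primes (`Pool.Agent.H529.MP.critlm`); the
weights are products `∏ G(c_i) φ(∑ c_i)` on a grid; the cells for which the factorisation of the moduli fails are
bounded by a tilted product (`gcrit2`); the quadratic forms for `200705` forms are evaluated by exact integer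
arithmetic in Lean's kernel (`certD`: `200704`-fold convolution powers with `5 004 126` slots).
-/

set_option autoImplicit false

open Finset Filter

namespace Pool.Agent.Results.MP_3efbeb_nt.FourPrimes2828100

/-- For all `ε > 0` and all large `x` at least `x ^ (1 - ε)` of the primes `p_k ≤ x` satisfy
`p_(k+3) ≤ p_k + 2828100`. In particular `liminf (p_(k+3) - p_k) ≤ 2828100`. -/
theorem result :
    ∀ ε : ℝ, 0 < ε → ∀ᶠ x : ℝ in atTop,
      x ^ (1 - ε) ≤ (Set.ncard {k : ℕ | (Nat.nth Nat.Prime k : ℝ) ≤ x ∧
        Nat.nth Nat.Prime (k + 3) ≤ Nat.nth Nat.Prime k + 2828100} : ℝ) :=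
  fun ε hε => Pool.Agent.H358R5.GAPS_proof 3 200705 2828100 (by norm_num) Pool.Agent.H529.MP.chyp4
    Pool.Agent.H529.MP.tupD ε hε

end Pool.Agent.Results.MP_3efbeb_nt.FourPrimes2828100
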