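import Mathlib
import Pool.Agent.H569.IL3

/-!
# Infinite sets of shifts with a prescribed infinite table of Legendre symbols

Let `q` be a multiple of `4`, let `a` be coprime to `q` and let `ε i j = ± 1`, `i ≠ j`, be an arbitrary infinite table
of signs which satisfies the law of quadratic reciprocity for primes congruent to `a` modulo `4`: it is symmetric if
`a ≡ 1 (mod 4)` (a countable graph) and skew if `a ≡ 3 (mod 4)` (a countable tournament). There is ONE infinite
sequence of shifts `H 0 < H 1 < ...`, all divisible by `q`, such that for every `m` there are infinitely many
`n ≡ a (mod q)` for which `n + H 0, ..., n + H (m - 1)` are all primes and the Legendre symbols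
`(n + H i / n + H j)` are the given signs `ε i j` for all `i ≠ j`. (The Jacobi symbol `jacobiSym` of Mathlib is the
Legendre symbol if the lower argument is an odd prime.)

The proof. The finitely additive measures of the starting files (`Pool.Agent.H361R2.Inf`), with congruence conditions
to moduli which become divisible by every integer, give one infinite set `I` of shifts of a fixed sequence `h`, such that
all finite parts of `I` are prime patterns in the prescribed residue classes, and such that `I` meets a positive
proportion of the classes of shifts placed at the words of length `l` over two letters, for infinitely many `l`. By the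
theorem of Bicker and Voigt (`Pool.Agent.H569.TR.strong_subtree`) there is an infinite strong subtree of words whose
classes are met. In a strong subtree every countable graph can be coded by the passing numbers: the letter of the longer
word at the place given by the length of the shorter one. The sequence `h` and the residue classes are constructed
before (`Pool.Agent.H569.IL.step`): a private prime for each pair of shifts makes the symbol of the pair equal to the
sign given by the passing number.
-/

set_option autoImplicit false

namespace Pool.Agent.Results.MP_3efbeb_nt.InfiniteLegendreTables

theorem result (q a : ℕ) (hq : 0 < q) (hq4 : 4 ∣ q) (ha : a.Coprime q) (ε : ℕ → ℕ → ℤ)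
    (hε : ∀ i j, i ≠ j → ε i j = 1 ∨ ε i j = -1)
    (hrec : ∀ i j, i ≠ j → ε i j * ε j i = if a % 4 = 1 then 1 else -1) :
    ∃ H : ℕ → ℕ, StrictMono H ∧ (∀ i, q ∣ H i) ∧ ∀ m : ℕ,
      {n : ℕ | n ≡ a [MOD q] ∧ (∀ i < m, (n + H i).Prime) ∧
        ∀ i < m, ∀ j < m, i ≠ j → jacobiSym ((n + H i : ℕ) : ℤ) (n + H j) = ε i j}.Infinite :=
  Pool.Agent.H569.IL.main hq hq4 ha hε hrec

end Pool.Agent.Results.MP_3efbeb_nt.InfiniteLegendreTables
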