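import Pool.Agent.H566.BohrTup
import Pool.Agent.H579.G.TupQ

/-!
# The formula of Hardy and Littlewood for almost all prime triples, quadruples, ... whose shifts are in sparse linear
# Bohr sets

Let `k, D ≥ 1` and let `B i`, `i = 1, ..., k`, be the sets of the multiples `h ≤ x` of `D` with `‖α i h + β i‖ ≤ δ i`,
where `‖·‖` is the distance to the nearest integer. The `δ i` may be as small as a power `x ^ (-θ)`. If the `α i` are
not too close to fractions with small denominators, then `B i` has at least `δ i x / (4 D)` members, and the number of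
the vectors `h ∈ B 1 × ⋯ × B k` with distinct entries, for which the formula of Hardy and Littlewood for the number of
the primes `p ≤ x` with all `p + h i` prime fails, is at most `(∏ δ i x) / (log x) ^ A`.

* This holds for `δ i = x ^ (-θ i)`, `θ i < 1 / 3`, and all large `x` if the `α i` are badly approximable, and
  generally for `θ i < (2 / 3) (1 + 1 / τ i) - 1` if `‖α i q‖ ≥ c i q ^ (-τ i)` for all `q ≥ 1`.
* For EVERY irrational `α = α 1 = ⋯ = α k` and `θ i < 1 / 3` it holds for arbitrarily large `x`.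

If all primes `p ≤ k + 1` divide `D` then all these vectors are admissible. For `k = 2`, `D = 6` these are prime triples
`p, p + h 1, p + h 2`; for `k = 3`, `D = 6` they are prime quadruples.

Proof. By a theorem of helper579 (`H579/G/TupQ`) the products of residue classes modulo `q 1, ..., q k ≤ x ^ (2 / 3 - ρ)`
have few exceptions if no `q i` is divisible by a member of a set of at most `(log x) ^ c` integers larger than
`(log x) ^ (c + 1)`. Every `α i` has a good approximation `a i / q i` with such a `q i` (a mediant of two fractions near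
`α i`, `H566/BohrTup`), and the members of `B i` are contained in at most `5 δ i q i` residue classes modulo `q i`.
-/

set_option autoImplicit false

namespace Pool.Agent.Results.MP_3efbeb_nt.LinearBohrShapes

open Finset

/-- The distance of a real number to the nearest integer. -/
noncomputable def distInt (x : ℝ) : ℝ := |x - round x|

/-- The primes `p ≤ x` for which all the `p + h i` are primes. -/
def tuples {k : ℕ} (h : Fin k → ℕ) (x : ℕ) : Finset ℕ := (Icc 1 x).filter (fun p => p.Prime ∧ ∀ i, (p + h i).Prime)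

/-- The number of the residues `r` modulo `p` for which `p` divides `r` or one of the `r + h i`. -/
def nu {k : ℕ} (h : Fin k → ℕ) (p : ℕ) : ℕ := ((range p).filter (fun r => p ∣ r ∨ ∃ i, p ∣ r + h i)).card

/-- The factor `(1 - ν(p) / p) / (1 - 1 / p) ^ (k + 1)` of the singular series. -/
noncomputable def factor {k : ℕ} (h : Fin k → ℕ) (p : ℕ) : ℝ := (1 - (nu h p : ℝ) / p) / (1 - 1 / (p : ℝ)) ^ (k + 1)

/-- The singular series of Hardy and Littlewood of the tuple `0, h 1, ..., h k`: the product over all primes. -/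
noncomputable def singular {k : ℕ} (h : Fin k → ℕ) : ℝ := ∏' p : Nat.Primes, factor h (p : ℕ)

/-- For every prime `p` one of the residues `r` modulo `p` is such that `p` divides neither `r` nor any `r + h i`. -/
def Admissible {k : ℕ} (h : Fin k → ℕ) : Prop := ∀ p : ℕ, p.Prime → nu h p < p

/-- The formula of Hardy and Littlewood for the shifts `h 1, ..., h k` and the primes up to `x`: the product `singular h`
converges, `singular h * x` is the number of the `p ∈ tuples h x`, counted with the weights `log p * ∏ i, log (p + h i)`,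
with an error of at most `x / log ^ A x`, and, if the shifts are admissible, `singular h` is positive and the number of the
`p ∈ tuples h x` is `singular h * x / log ^ (k + 1) x` with a relative error of at most `ε`. -/
def Holds {k : ℕ} (ε : ℝ) (A x : ℕ) (h : Fin k → ℕ) : Prop :=
  Multipliable (fun p : Nat.Primes => factor h (p : ℕ)) ∧
    |∑ p ∈ tuples h x, Real.log p * ∏ i, Real.log ((p : ℝ) + h i) - singular h * x| ≤ (x : ℝ) / Real.log x ^ A ∧
    (Admissible h → 0 < singular h ∧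
      |((tuples h x).card : ℝ) - singular h * (x / Real.log x ^ (k + 1))| ≤
        ε * (singular h * (x / Real.log x ^ (k + 1))))

open Classical in
/-- The multiples `1 ≤ n ≤ x` of `D` with `‖α n + β‖ ≤ δ`. -/
noncomputable def bohr (D x : ℕ) (α β δ : ℝ) : Finset ℕ :=
  (Icc 1 x).filter (fun n => D ∣ n ∧ distInt (α * n + β) ≤ δ)

open Classical in
/-- Each of the sets `B i = bohr D x (α i) (β i) (δ i)` has at least `δ i x / (4 D)` members, and for all but at most
`(∏ δ i x) / (log x) ^ A` of the vectors `h ∈ B 1 × ⋯ × B k` with distinct entries the formula of Hardy and Littlewood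
holds for the primes up to `x`. -/
def FewExceptions {k : ℕ} (ε : ℝ) (D A x : ℕ) (α β δ : Fin k → ℝ) : Prop :=
  (∀ i, δ i * x / (4 * D) ≤ ((bohr D x (α i) (β i) (δ i)).card : ℝ)) ∧
  (((Fintype.piFinset (fun i => bohr D x (α i) (β i) (δ i))).filter
    (fun h => Function.Injective h ∧ ¬ Holds ε A x h)).card : ℝ) ≤ (∏ i, (δ i * x)) / Real.log x ^ A

open Pool.Agent.H579.G in
lemma nu_eq {k : ℕ} (h : Fin k → ℕ) (p : ℕ) :
    Pool.Agent.H373R2.T7.nuB (Qf (fun _ => 1) (cons0 (fun i => (h i : ℤ)))) p = nu h p := by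
  classical
  rw [← nuP_cons]
  unfold Pool.Agent.H373R2.T7.nuP nu
  congr 1
  apply filter_congr
  intro r _
  have h1 : ∀ i, ((p : ℤ) ∣ (r : ℤ) + (h i : ℤ)) ↔ p ∣ r + h i := by
    intro i
    rw [← Int.natCast_add, Int.natCast_dvd_natCast]
  simp only [h1]

open Pool.Agent.H579.G in
lemma fac_eq {k : ℕ} (h : Fin k → ℕ) (p : ℕ) :
    fac (k + 1) (Pool.Agent.H373R2.T7.nuB (Qf (fun _ => 1) (cons0 (fun i => (h i : ℤ))))) p = factor h p := by
  unfold fac factor
  rw [nu_eq]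

open Pool.Agent.H579.G in
lemma singular_eq {k : ℕ} (h : Fin k → ℕ) : sing (fun _ => 1) (cons0 (fun i => (h i : ℤ))) = singular h := by
  unfold sing singular
  congr 1
  funext p
  exact fac_eq h p

open Pool.Agent.H579.G in
lemma cons_ne {k : ℕ} (h : Fin k → ℤ) (hinj : Function.Injective h) (hh : ∀ i, 0 < h i) (i j : Fin (k + 1))
    (hij : i ≠ j) : (1 : ℤ) * cons0 h j ≠ 1 * cons0 h i := by
  intro e
  rw [one_mul, one_mul] at e
  unfold cons0 at e
  refine Fin.cases ?_ (fun i' => ?_) i (motive := fun i => i ≠ j → (Fin.cons 0 h : Fin (k + 1) → ℤ) j =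
    (Fin.cons 0 h : Fin (k + 1) → ℤ) i → False) hij e
  · intro h5
    refine Fin.cases (fun h5 _ => h5 rfl) (fun j' _ e' => ?_) j (motive := fun j => 0 ≠ j →
      (Fin.cons 0 h : Fin (k + 1) → ℤ) j = (Fin.cons 0 h : Fin (k + 1) → ℤ) 0 → False) h5
    rw [Fin.cons_zero, Fin.cons_succ] at e'
    exact (hh j').ne' e'
  · intro h5
    refine Fin.cases (fun _ e' => ?_) (fun j' h6 e' => ?_) j (motive := fun j => i'.succ ≠ j →
      (Fin.cons 0 h : Fin (k + 1) → ℤ) j = (Fin.cons 0 h : Fin (k + 1) → ℤ) i'.succ → False) h5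
    · rw [Fin.cons_zero, Fin.cons_succ] at e'
      exact (hh i').ne e'
    · rw [Fin.cons_succ, Fin.cons_succ] at e'
      exact h6 (congrArg Fin.succ (hinj e'.symm))

open Pool.Agent.H579.G in
lemma mult {k : ℕ} (h : Fin k → ℕ) (hinj : Function.Injective h) (hh : ∀ i, 0 < h i) :
    Multipliable (fun p : Nat.Primes => factor h (p : ℕ)) := by
  have h1 := fac_mult (k := k + 1) (Pool.Agent.H373R2.T7.nuB (Qf (fun _ => 1) (cons0 (fun i => (h i : ℤ)))))
    (badF (fun _ => 1) (cons0 (fun i => (h i : ℤ))))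
    (fun p hp hpB => badF_spec (fun _ => one_ne_zero)
      (fun i j hij => cons_ne (fun i => (h i : ℤ)) (fun a b hab => hinj (by
        simp only at hab
        exact_mod_cast hab)) (fun i => by
        show (0 : ℤ) < (h i : ℤ)
        have := hh i
        omega) i j hij) hp hpB)
  have e : (fun p : Nat.Primes => factor h (p : ℕ)) = fun p : Nat.Primes =>
      fac (k + 1) (Pool.Agent.H373R2.T7.nuB (Qf (fun _ => 1) (cons0 (fun i => (h i : ℤ))))) p := by
    funext p
    exact (fac_eq h p).symm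
  rw [e]
  exact h1

open Pool.Agent.H579.G in
/-- the singular series of admissible shifts is not small -/
lemma singular_ge (k : ℕ) : ∃ c : ℝ, 0 < c ∧ ∀ h : Fin k → ℕ, Function.Injective h → (∀ i, 0 < h i) →
    Admissible h → c ≤ singular h := by
  classical
  obtain ⟨z, hz⟩ : ∃ z : ℕ, z = 3 * (k + 1) := ⟨_, rfl⟩
  obtain ⟨ps, hps⟩ : ∃ ps : Finset ℕ, ps = Pool.Agent.H373R2.T7.pz z := ⟨_, rfl⟩
  have hpr : ∀ p ∈ ps, p.Prime := by
    intro p hp
    rw [hps] at hp
    unfold Pool.Agent.H373R2.T7.pz at hp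
    exact (mem_filter.1 hp).2
  obtain ⟨c, hc⟩ : ∃ c : ℝ, c = (∏ p ∈ ps, 1 / (p : ℝ)) * Real.exp (-(((k + 1 : ℕ) : ℝ) ^ 2 / z)) := ⟨_, rfl⟩
  refine ⟨c, ?_, fun h hinj hh hadm => ?_⟩
  · rw [hc]
    refine mul_pos (prod_pos fun p hp => ?_) (Real.exp_pos _)
    have : (0 : ℝ) < p := by exact_mod_cast (hpr p hp).pos
    positivity
  have h1 := sing_ge (k := k + 1) (Pool.Agent.H373R2.T7.nuB (Qf (fun _ => 1) (cons0 (fun i => (h i : ℤ)))))
    (badF (fun _ => 1) (cons0 (fun i => (h i : ℤ))))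
    (fun p hp hpB => badF_spec (fun _ => one_ne_zero)
      (fun i j hij => cons_ne (fun i => (h i : ℤ)) (fun a b hab => hinj (by
        simp only at hab
        exact_mod_cast hab)) (fun i => by
        show (0 : ℤ) < (h i : ℤ)
        have := hh i
        omega) i j hij) hp hpB)
    (fun p hp => by
      rw [nu_eq]
      exact (hadm p hp).le)
    (fun p hp => nu_few hp (fun i hpi => by
      have := Int.le_of_dvd one_pos hpi.1
      have := hp.two_le
      omega))
    (z := z) (by omega) (by omega)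
  have h2 : (∏' p : Nat.Primes, fac (k + 1) (Pool.Agent.H373R2.T7.nuB (Qf (fun _ => 1)
      (cons0 (fun i => (h i : ℤ))))) p) = singular h := singular_eq h
  rw [h2, ← hps] at h1
  refine le_trans ?_ h1
  rw [hc]
  refine mul_le_mul_of_nonneg_right ?_ (Real.exp_pos _).le
  refine prod_le_prod (fun p _ => by positivity) (fun p hp => ?_)
  rw [fac_eq]
  have hp0 : (0 : ℝ) < p := by exact_mod_cast (hpr p hp).pos
  have hp1 : (1 : ℝ) < p := by exact_mod_cast (hpr p hp).one_lt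
  unfold factor
  have h3 : (nu h p : ℝ) + 1 ≤ p := by exact_mod_cast hadm p (hpr p hp)
  have h4 : 1 / (p : ℝ) ≤ 1 - (nu h p : ℝ) / p := by
    rw [div_le_iff₀ hp0, sub_mul, div_mul_cancel₀ _ hp0.ne']
    linarith
  have h5 : 0 < 1 - 1 / (p : ℝ) := by
    rw [sub_pos, div_lt_one hp0]
    exact hp1
  have h6 : 1 - 1 / (p : ℝ) ≤ 1 := by
    have : 0 < 1 / (p : ℝ) := by positivity
    linarith
  rw [le_div_iff₀ (by positivity)]
  calc 1 / (p : ℝ) * (1 - 1 / (p : ℝ)) ^ (k + 1) ≤ 1 / (p : ℝ) * 1 :=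
        mul_le_mul_of_nonneg_left (pow_le_one₀ h5.le h6) (by positivity)
    _ ≤ 1 - (nu h p : ℝ) / p := by rw [mul_one]; exact h4

open Pool.Agent.H579.G in
lemma prP_iff (h n : ℕ) : PrP (h : ℤ) n ↔ (n + h).Prime := by
  unfold PrP
  constructor
  · rintro ⟨p, hp, he⟩
    have : n + h = p := by exact_mod_cast he
    rw [this]
    exact hp
  · intro h1
    exact ⟨n + h, h1, by push_cast; rfl⟩

open Pool.Agent.H579.G in
lemma weighted_eq {k : ℕ} (h : Fin k → ℕ) (x : ℕ) : wsum x (fun i => (h i : ℤ)) =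
    ∑ p ∈ tuples h x, Real.log p * ∏ i, Real.log ((p : ℝ) + h i) := by
  classical
  rw [wsum_eq]
  unfold tuples
  refine sum_congr ?_ fun p _ => ?_
  · refine filter_congr fun n _ => and_congr_right fun _ => forall_congr' fun i => ?_
    exact prP_iff (h i) n
  · congr 1
    refine prod_congr rfl fun i _ => ?_
    have : ((p : ℤ) + (h i : ℤ)).toNat = p + h i := by omega
    rw [this]
    push_cast
    rfl

open Pool.Agent.H579.G in
lemma count_eq {k : ℕ} (h : Fin k → ℕ) (x : ℕ) : cntP x (fun i => (h i : ℤ)) = (tuples h x).card := by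
  classical
  unfold cntP tuples
  congr 1
  refine filter_congr fun n _ => and_congr_right fun _ => forall_congr' fun i => ?_
  exact prP_iff (h i) n

/-- the exceptions of the theorem of helper579 -/
def Bad (ε : ℝ) (k A N : ℕ) (h : Fin k → ℤ) : Prop :=
  N / Real.log N ^ A < |Pool.Agent.H579.G.wsum N h -
      Pool.Agent.H579.G.sing (fun _ => 1) (Pool.Agent.H579.G.cons0 h) * N| ∨
    ε * (Pool.Agent.H579.G.sing (fun _ => 1) (Pool.Agent.H579.G.cons0 h) * (N / Real.log N ^ (k + 1))) +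
      N / Real.log N ^ A < |(Pool.Agent.H579.G.cntP N h : ℝ) -
        Pool.Agent.H579.G.sing (fun _ => 1) (Pool.Agent.H579.G.cons0 h) * (N / Real.log N ^ (k + 1))|

lemma holds_of_not_bad (k A : ℕ) (ε : ℝ) (hε : 0 < ε) : ∃ x₀ : ℕ, ∀ x : ℕ, x₀ ≤ x → ∀ h : Fin k → ℕ,
    Function.Injective h → (∀ i, 0 < h i) → ¬ Bad (ε / 2) k (A + k + 2) x (fun i => (h i : ℤ)) → Holds ε A x h := by
  obtain ⟨c, hc0, hc⟩ := singular_ge k
  obtain ⟨n₁, hn₁⟩ := exists_nat_gt (Real.exp (max 1 (2 / (ε * c))))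
  refine ⟨n₁, fun x hx h hinj hh hb => ?_⟩
  have hxe : Real.exp (max 1 (2 / (ε * c))) ≤ x := by
    have : (n₁ : ℝ) ≤ x := by exact_mod_cast hx
    linarith
  have hx0 : (0 : ℝ) < x := (Real.exp_pos _).trans_le hxe
  have hlog := (Real.le_log_iff_exp_le hx0).2 hxe
  have hl1 : 1 ≤ Real.log x := (le_max_left _ _).trans hlog
  have hl2 : 2 / (ε * c) ≤ Real.log x := (le_max_right _ _).trans hlog
  have hl0 : 0 < Real.log x := by linarith
  unfold Bad at hb
  rw [not_or, not_lt, not_lt, singular_eq, weighted_eq, count_eq] at hb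
  obtain ⟨hb1, hb2⟩ := hb
  refine ⟨mult h hinj hh, hb1.trans ?_, fun hadm => ?_⟩
  · exact div_le_div_of_nonneg_left hx0.le (by positivity) (pow_le_pow_right₀ hl1 (by omega))
  · have hS := hc h hinj hh hadm
    have hS0 : 0 < singular h := hc0.trans_le hS
    refine ⟨hS0, hb2.trans ?_⟩
    have h1 : (x : ℝ) / Real.log x ^ (A + k + 2) ≤ x / Real.log x ^ (k + 2) :=
      div_le_div_of_nonneg_left hx0.le (by positivity) (pow_le_pow_right₀ hl1 (by omega))
    obtain ⟨Y, hY⟩ : ∃ Y : ℝ, Y = x / Real.log x ^ (k + 1) := ⟨_, rfl⟩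
    have hY0 : 0 < Y := by rw [hY]; positivity
    have h2 : (x : ℝ) / Real.log x ^ (k + 2) = Y / Real.log x := by
      rw [hY, pow_succ (Real.log x) (k + 1), div_div]
    have h3 : Y / Real.log x ≤ ε / 2 * (c * Y) := by
      rw [div_le_iff₀ hl0]
      rw [div_le_iff₀ (by positivity)] at hl2
      nlinarith
    have h4 : ε / 2 * (c * Y) ≤ ε / 2 * (singular h * Y) := by
      apply mul_le_mul_of_nonneg_left _ (by linarith)
      exact mul_le_mul_of_nonneg_right hS hY0.le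
    rw [← hY]
    linarith

theorem uniform (k : ℕ) (hk : 1 ≤ k) (D : ℕ) (hD : 1 ≤ D) (ε : ℝ) (hε : 0 < ε) (A : ℕ) (ρ : ℝ) (hρ : 0 < ρ) :
    ∃ x₀ : ℕ, ∀ x : ℕ, x₀ ≤ x → ∀ α β δ : Fin k → ℝ, (∀ i, 0 < δ i ∧ δ i ≤ 1 ∧
      ∀ q : ℕ, 1 ≤ q → (q : ℝ) ≤ (x : ℝ) ^ (1 / 3 + ρ) / δ i → (x : ℝ) ^ (ρ - 2 / 3) < distInt (α i * q)) →
      FewExceptions ε D A x α β δ := by
  classical
  obtain ⟨x₁, h1⟩ := Pool.Agent.H566.bohr_vectors k ρ hρ A (Bad (ε / 2) k (A + k + 2)) (by
    obtain ⟨c, hc⟩ := Pool.Agent.H579.G.tupQ k hk (ρ := ρ / 2) (by linarith) (A + k + 2) (ε := ε / 2) (by linarith)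
    refine ⟨c, fun A₀ => ?_⟩
    obtain ⟨N₀, h0⟩ := hc A₀
    obtain ⟨n₁, hn₁⟩ := exists_nat_gt (Real.exp 1)
    refine ⟨N₀ + n₁, fun N hN => ?_⟩
    obtain ⟨E, hE1, hE2, hE3⟩ := h0 N (by omega)
    refine ⟨E, hE1, hE2, fun q hq a T hT => ?_⟩
    have h2 := hE3 q hq a T (fun h hh => ⟨(hT h hh).1, (hT h hh).2.1⟩) (fun h hh => (hT h hh).2.2)
    have hNe : Real.exp 1 ≤ N := by
      have : (n₁ : ℝ) ≤ N := by exact_mod_cast (by omega : n₁ ≤ N)
      linarith
    have hN0 : (0 : ℝ) < N := (Real.exp_pos 1).trans_le hNe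
    have hl1 : 1 ≤ Real.log N := (Real.le_log_iff_exp_le hN0).2 hNe
    refine h2.trans ?_
    refine div_le_div_of_nonneg_left (prod_nonneg fun i _ => by positivity) (by positivity) ?_
    exact pow_le_pow_right₀ hl1 (by omega))
  obtain ⟨x₂, h2⟩ := holds_of_not_bad k A ε hε
  obtain ⟨X₃, h3⟩ := Pool.Agent.H566.bohr_lowerD D hD ρ hρ
  obtain ⟨x₃, hx₃⟩ := exists_nat_gt X₃
  refine ⟨x₁ + x₂ + x₃, fun x hx α β δ hα => ⟨fun i => ?_, ?_⟩⟩
  · have hX : X₃ ≤ x := by
      have : (x₃ : ℝ) ≤ x := by exact_mod_cast (by omega : x₃ ≤ x)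
      linarith
    refine h3 x hX (α i) (β i) (δ i) (hα i).1 (hα i).2.1 (hα i).2.2 _ (fun n hn1 hn2 hn3 hn4 => ?_)
    unfold bohr
    rw [mem_filter, mem_Icc]
    exact ⟨⟨hn1, by exact_mod_cast hn2⟩, hn3, hn4⟩
  · refine h1 x (by omega) α β δ hα _ (fun h hh => ?_)
    rw [mem_filter, Fintype.mem_piFinset] at hh
    obtain ⟨g1, g2, g3⟩ := hh
    have g4 : ∀ i, (1 ≤ h i ∧ h i ≤ x) ∧ D ∣ h i ∧ distInt (α i * h i + β i) ≤ δ i := by
      intro i
      have := g1 i
      unfold bohr at this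
      rwa [mem_filter, mem_Icc] at this
    refine ⟨g2, fun i => ⟨(g4 i).1.1, (g4 i).1.2, (g4 i).2.2⟩, ?_⟩
    by_contra hcon
    exact g3 (h2 x (by omega) h g2 (fun i => (g4 i).1.1) hcon)

/-- smaller `ρ` -/
lemma mono (X δ ρ ρ' α : ℝ) (hX : 1 ≤ X) (hδ : 0 < δ) (hρ : ρ ≤ ρ')
    (h : ∀ q : ℕ, 1 ≤ q → (q : ℝ) ≤ X ^ (1 / 3 + ρ') / δ → X ^ (ρ' - 2 / 3) < distInt (α * q)) :
    ∀ q : ℕ, 1 ≤ q → (q : ℝ) ≤ X ^ (1 / 3 + ρ) / δ → X ^ (ρ - 2 / 3) < distInt (α * q) := by
  intro q hq1 hq2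
  have h1 : X ^ (1 / 3 + ρ) / δ ≤ X ^ (1 / 3 + ρ') / δ :=
    div_le_div_of_nonneg_right (Real.rpow_le_rpow_of_exponent_le hX (by linarith)) hδ.le
  have h2 : X ^ (ρ - 2 / 3) ≤ X ^ (ρ' - 2 / 3) := Real.rpow_le_rpow_of_exponent_le hX (by linarith)
  exact h2.trans_lt (h q hq1 (hq2.trans h1))

lemma admissible (k D : ℕ) (hD : ∀ p : ℕ, p.Prime → p ≤ k + 1 → p ∣ D) (h : Fin k → ℕ) (hh : ∀ i, D ∣ h i) :
    Admissible h := by
  classical
  intro p hp
  unfold nu
  rcases le_or_gt p (k + 1) with hpk | hpk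
  · have h1 : (range p).filter (fun r => p ∣ r ∨ ∃ i, p ∣ r + h i) ⊆ {0} := by
      intro r hr
      rw [mem_filter, mem_range] at hr
      rw [mem_singleton]
      obtain ⟨hr1, hr2⟩ := hr
      have : p ∣ r := by
        rcases hr2 with hr2 | ⟨i, hi⟩
        · exact hr2
        · exact (Nat.dvd_add_left ((hD p hp hpk).trans (hh i))).1 hi
      exact Nat.eq_zero_of_dvd_of_lt this hr1
    have h2 := card_le_card h1
    rw [card_singleton] at h2
    have := hp.two_le
    omega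
  · have h1 : (range p).filter (fun r => p ∣ r ∨ ∃ i, p ∣ r + h i) ⊆
        insert 0 (univ.image (fun i : Fin k => (p - h i % p) % p)) := by
      intro r hr
      rw [mem_filter, mem_range] at hr
      obtain ⟨hr1, hr2⟩ := hr
      rw [mem_insert, mem_image]
      rcases hr2 with hr2 | ⟨i, hi⟩
      · left
        exact Nat.eq_zero_of_dvd_of_lt hr2 hr1
      · right
        refine ⟨i, mem_univ i, ?_⟩
        have h3 : (r + h i % p) % p = 0 := by
          rw [Nat.add_mod_mod]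
          exact Nat.mod_eq_zero_of_dvd hi
        have h4 : h i % p < p := Nat.mod_lt _ hp.pos
        obtain ⟨m, hm⟩ : ∃ m, m = h i % p := ⟨_, rfl⟩
        rw [← hm] at h3 h4 ⊢
        obtain ⟨t, ht⟩ := Nat.dvd_of_mod_eq_zero h3
        have ht2 : t < 2 := by
          by_contra hcon
          have : p * 2 ≤ p * t := Nat.mul_le_mul_left p (by omega)
          omega
        interval_cases t
        · have e1 : r = 0 := by omega
          have e2 : m = 0 := by omega
          rw [e1, e2, Nat.sub_zero, Nat.mod_self]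
        · have e1 : p - m = r := by omega
          rw [e1, Nat.mod_eq_of_lt hr1]
    have h2 := card_le_card h1
    have h3 := card_insert_le 0 (univ.image (fun i : Fin k => (p - h i % p) % p))
    have h4 : (univ.image (fun i : Fin k => (p - h i % p) % p)).card ≤ k := by
      refine card_image_le.trans ?_
      rw [card_univ, Fintype.card_fin]
    omega

/-- (1) All shifts divisible by `D` are admissible if all primes `p ≤ k + 1` divide `D`.
(2) A uniform theorem: all `α i` which are not too close to fractions with small denominators.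
(3) The numbers `α i` of finite type; for `τ i = 1` the badly approximable ones, with all `θ i < 1 / 3`.
(4) All irrational `α` and `θ i < 1 / 3`, for arbitrarily large `x`. -/
theorem result (k : ℕ) (hk : 1 ≤ k) (D : ℕ) (hD : 1 ≤ D) (ε : ℝ) (hε : 0 < ε) (A : ℕ) :
    ((∀ p : ℕ, p.Prime → p ≤ k + 1 → p ∣ D) → ∀ h : Fin k → ℕ, (∀ i, D ∣ h i) → Admissible h) ∧
    (∀ ρ : ℝ, 0 < ρ → ∃ x₀ : ℕ, ∀ x : ℕ, x₀ ≤ x → ∀ α β δ : Fin k → ℝ, (∀ i, 0 < δ i ∧ δ i ≤ 1 ∧
      ∀ q : ℕ, 1 ≤ q → (q : ℝ) ≤ (x : ℝ) ^ (1 / 3 + ρ) / δ i → (x : ℝ) ^ (ρ - 2 / 3) < distInt (α i * q)) →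
      FewExceptions ε D A x α β δ) ∧
    (∀ α θ τ c : Fin k → ℝ, (∀ i, 0 < c i ∧ 1 ≤ τ i ∧ 0 ≤ θ i ∧ θ i < 2 / 3 * (1 + 1 / τ i) - 1 ∧
      ∀ q : ℕ, 1 ≤ q → c i / (q : ℝ) ^ τ i ≤ distInt (α i * q)) →
      ∃ x₀ : ℕ, ∀ x : ℕ, x₀ ≤ x → ∀ β : Fin k → ℝ, FewExceptions ε D A x α β (fun i => (x : ℝ) ^ (-θ i))) ∧
    (∀ α : ℝ, Irrational α → ∀ θ : Fin k → ℝ, (∀ i, 0 ≤ θ i ∧ θ i < 1 / 3) →
      ∀ N : ℕ, ∃ x : ℕ, N ≤ x ∧ ∀ β : Fin k → ℝ,
        FewExceptions ε D A x (fun _ => α) β (fun i => (x : ℝ) ^ (-θ i))) := by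
  classical
  haveI : Nonempty (Fin k) := ⟨⟨0, hk⟩⟩
  refine ⟨admissible k D, uniform k hk D hD ε hε A, ?_, ?_⟩
  · intro α θ τ c hα
    have h1 : ∀ i, ∃ ρ : ℝ, 0 < ρ ∧ ∃ X₀ : ℝ, ∀ X : ℝ, X₀ ≤ X →
        (∀ q : ℕ, 1 ≤ q → (q : ℝ) ≤ X ^ (1 / 3 + ρ) / X ^ (-θ i) → X ^ (ρ - 2 / 3) <
          Pool.Agent.H566.dist1 (α i * q)) :=
      fun i => Pool.Agent.H566.hyp_of_type2 (τ i) (c i) (α i) (θ i) (hα i).2.1 (hα i).1 (hα i).2.2.2.2 (hα i).2.2.2.1
    choose ρ hρ X hX using h1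
    obtain ⟨i₀, hi₀⟩ := Finite.exists_min ρ
    obtain ⟨i₁, hi₁⟩ := Finite.exists_max X
    obtain ⟨x₁, h2⟩ := uniform k hk D hD ε hε A (ρ i₀) (hρ i₀)
    obtain ⟨x₂, hx₂⟩ := exists_nat_gt (X i₁)
    refine ⟨x₁ + x₂ + 1, fun x hx β => h2 x (by omega) α β _ (fun i => ?_)⟩
    have hx1 : (1 : ℝ) ≤ x := by exact_mod_cast (by omega : 1 ≤ x)
    have hx0 : (0 : ℝ) < x := by linarith
    have hxX : X i ≤ x := by
      have h3 : (x₂ : ℝ) ≤ x := by exact_mod_cast (by omega : x₂ ≤ x)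
      have h4 := hi₁ i
      linarith
    refine ⟨Real.rpow_pos_of_pos hx0 _, Real.rpow_le_one_of_one_le_of_nonpos hx1 (by linarith [(hα i).2.2.1]), ?_⟩
    exact mono x _ (ρ i₀) (ρ i) (α i) hx1 (Real.rpow_pos_of_pos hx0 _) (hi₀ i) (hX i x hxX)
  · intro α hα θ hθ N
    obtain ⟨i₀, hi₀⟩ := Finite.exists_max θ
    obtain ⟨ρ, hρ, h1⟩ := Pool.Agent.H566.hyp_nat α (θ i₀) hα (hθ i₀).1 (hθ i₀).2
    obtain ⟨x₁, h2⟩ := uniform k hk D hD ε hε A ρ hρ
    obtain ⟨x, hx, hx1, hq⟩ := h1 (N + x₁)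
    refine ⟨x, by omega, fun β => h2 x (by omega) _ β _ (fun i => ?_)⟩
    have hx1' : (1 : ℝ) ≤ x := by exact_mod_cast hx1
    have hx0 : (0 : ℝ) < x := by linarith
    refine ⟨Real.rpow_pos_of_pos hx0 _, Real.rpow_le_one_of_one_le_of_nonpos hx1' (by linarith [(hθ i).1]),
      fun q hq1 hq2 => hq q hq1 (hq2.trans ?_)⟩
    refine div_le_div_of_nonneg_left (Real.rpow_pos_of_pos hx0 _).le (Real.rpow_pos_of_pos hx0 _) ?_
    exact Real.rpow_le_rpow_of_exponent_le hx1' (by linarith [hi₀ i])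

end Pool.Agent.Results.MP_3efbeb_nt.LinearBohrShapes
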